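import Pool.Agent.X274.TH.Hom0
import Pool.Agent.Y142.SV.Fin
import Pool.Agent.Y405.ZO.Frob
import Pool.Agent.Y484.ZI.IntRes
import Pool.Agent.Y726.ZI.Cheb
import Pool.Agent.Y681.ZI.Dens
import Pool.Agent.Y537.ZI.Multi
import Pool.Agent.Y614.ZD.Badd
import Pool.Agent.Y100.ZD.Sub
import Pool.Agent.Y255.SS.LF
import Pool.Agent.Y297.SS.CF
import Pool.Agent.Y708.SS.Loc
import Pool.Agent.Y936.SS.Logr
import Pool.Agent.Y518.SS.Krs
import Pool.Agent.Y737.SS.Chara
import Pool.Agent.Y932.SI.Subf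
import Pool.Agent.Y421.SI.EF
import Pool.Agent.Y641.SI.Trd
import Pool.Agent.Y949.SI.Ende

/-!
# The Tate conjecture for homomorphisms of motives with coefficients at 100 percent of the primes `ℓ`

Let `M_i`, `i ∈ I`, be finitely many pure motives over a number field `k` (or a finitely generated field
of characteristic zero), for example direct factors of the cohomology of smooth projective varieties, of
any weights, which are cut out by algebraic correspondences. Let `E_i` be a number field, Galois over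
`ℚ` (`E_i = ℚ` is allowed, and `E_i` need not be totally real or a CM field), which acts on `M_i` by
correspondences, such that the `ℓ`-adic realization `V_i` is free of rank `n_i` over `E_i ⊗ ℚ_ℓ`. Nothing
is assumed about polarizations or bilinear forms. At the places `v` of good reduction the geometric
Frobenius element has a characteristic polynomial `P_{i,v}` with rational coefficients which is
independent of `ℓ`.

**Theorem.** Suppose that for every `i` the finitely many conditions on Frobenius polynomials of the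
definition `EnoughPlaces` hold (see there), and that for `i ≠ j` there is one place `v` of good
reduction such that no quotient of a root of `P_{i,v}` and a root of `P_{j,v}` is a root of unity. Then for
all prime numbers `ℓ` outside of a set of natural density zero, and for all finite extensions `k'` of `k`:
the `V_i` are semisimple Galois modules over `k'`, the homomorphisms `V_i → V_j` over `k'` are zero for
`i ≠ j`, and the endomorphisms of `V_i` over `k'` are the elements of `E_i ⊗ ℚ_ℓ`.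

So the map `Hom(M, M') ⊗ ℚ_ℓ → Hom_G(M_ℓ, M'_ℓ)` is surjective for all motives `M`, `M'` which are direct
sums of the `M_i` (or direct summands of such sums), over all finite extensions of `k`.
-/

set_option autoImplicit false

namespace Pool.Agent.Results.MP_3703a7_ag.HomsDensityOne

open Matrix Polynomial Filter Topology NumberField IsDedekindDomain

/-- the absolute Galois group of `K`, with its profinite (Krull) topology -/
abbrev AbsoluteGaloisGroup (K : Type) [Field K] : Type := Gal(AlgebraicClosure K/K)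

/-- `σ` is an (arithmetic) Frobenius element at the prime `v` of the number field `K`: for some prime
`Q` of the algebraic closure above `v` it acts on the residue field as `x ↦ x ^ N(v)` -/
def IsFrobenius {K : Type} [Field K] [NumberField K] (v : HeightOneSpectrum (𝓞 K))
    (σ : AbsoluteGaloisGroup K) : Prop :=
  ∃ Q : Ideal (𝓞 (AlgebraicClosure K)), Q.IsMaximal ∧
    Q.comap (algebraMap (𝓞 K) (𝓞 (AlgebraicClosure K))) = v.asIdeal ∧
    ∀ x : 𝓞 (AlgebraicClosure K), σ • x - x ^ Ideal.absNorm v.asIdeal ∈ Q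

/-- `ρ` is a continuous representation of `Γ` on `ℚ_ℓ ^ N`, and for all `v ∉ S` which are prime to `ℓ`
the characteristic polynomial of (the image under `s` of) the geometric Frobenius elements `σ⁻¹`
(`σ` arithmetic) at `v` is `P v` -/
def IsSystem (K : Type) [Field K] [NumberField K] {Γ : Type} [Group Γ] [TopologicalSpace Γ]
    (s : AbsoluteGaloisGroup K →* Γ) (N ℓ : ℕ) [Fact ℓ.Prime]
    (ρ : Γ →* Matrix (Fin N) (Fin N) ℚ_[ℓ])
    (S : Set (HeightOneSpectrum (𝓞 K))) (P : HeightOneSpectrum (𝓞 K) → ℚ[X]) : Prop :=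
  Continuous ρ ∧ ∀ v ∉ S, (ℓ : 𝓞 K) ∉ v.asIdeal → ∀ σ : AbsoluteGaloisGroup K, IsFrobenius v σ →
    (ρ (s σ⁻¹)).charpoly = (P v).map (algebraMap ℚ ℚ_[ℓ])

/-- the field `E` acts by endomorphisms of the representation `ρ`, of rank `n` over `E ⊗ ℚ_ℓ` -/
def IsCoefficientAction {Γ : Type} [Group Γ] {N ℓ : ℕ} [Fact ℓ.Prime]
    (E : IntermediateField ℚ (AlgebraicClosure ℚ)) (n : ℕ)
    (ρ : Γ →* Matrix (Fin N) (Fin N) ℚ_[ℓ]) (ε : E →+* Matrix (Fin N) (Fin N) ℚ_[ℓ]) : Prop :=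
  (∀ (a : E) (γ : Γ), ε a * ρ γ = ρ γ * ε a) ∧
    ∀ a : E, (ε a).trace = (n : ℚ_[ℓ]) * ((Algebra.trace ℚ E a : ℚ) : ℚ_[ℓ])

/-- the roots of `P v` are simple, and different roots have different `n`-th powers for all `n > 0` -/
def IsRegularPlace {K : Type} [Field K] [NumberField K]
    (S : Set (HeightOneSpectrum (𝓞 K))) (P : HeightOneSpectrum (𝓞 K) → ℚ[X])
    (v : HeightOneSpectrum (𝓞 K)) : Prop :=
  v ∉ S ∧ (P v).Separable ∧ ∀ n : ℕ, 0 < n → ∀ x y : ℂ,
    aeval x (P v) = 0 → aeval y (P v) = 0 → x ^ n = y ^ n → x = y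

/-- the splitting field of `Q` in the algebraic closure of `ℚ` -/
noncomputable def splittingField (Q : ℚ[X]) : Set (AlgebraicClosure ℚ) :=
  (IntermediateField.adjoin ℚ {x : AlgebraicClosure ℚ | aeval x Q = 0} :
    IntermediateField ℚ (AlgebraicClosure ℚ))

/-- the order of the restriction of `g` to the (finite, normal) field `E` -/
noncomputable def orderOn (E : IntermediateField ℚ (AlgebraicClosure ℚ))
    (g : AbsoluteGaloisGroup ℚ) : ℕ :=
  sInf {k : ℕ | 0 < k ∧ ∀ a ∈ E, (g ^ k) a = a}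

/-- `T` is a set of roots of `Q` which is stable under `w` -/
def IsStableSet (w : AbsoluteGaloisGroup ℚ) (Q : ℚ[X]) (T : Set (AlgebraicClosure ℚ)) : Prop :=
  (∀ x ∈ T, aeval x Q = 0) ∧ ∀ x ∈ T, w x ∈ T

/-- the conditions on the Frobenius polynomials: there are regular places `u_0, ..., u_m`, with the
intersection `F` of the splitting fields of their polynomials, such that for every automorphism `g` of
the algebraic closure of `ℚ`, of order `f` on `E`,
* for every `d`, `0 < d < n [E : ℚ]`, which is not divisible by `n f`, there are a regular place `v` and an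
automorphism `w` which agrees with `g` on `F` such that no set of `d` roots of `P v` is stable under `w`;
* there are a regular place `v` and an automorphism `w` which agrees with `g` on `F` such that `w ^ f`
(`f` the order of `w` on `E`) has a fixed point in every nonempty set of roots of `P v` which is stable
under `w` and whose number of elements is divisible by `n f` -/
def EnoughPlaces {K : Type} [Field K] [NumberField K] (E : IntermediateField ℚ (AlgebraicClosure ℚ))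
    (n N : ℕ) (S : Set (HeightOneSpectrum (𝓞 K))) (P : HeightOneSpectrum (𝓞 K) → ℚ[X]) : Prop :=
  ∃ (m : ℕ) (u : Fin (m + 1) → HeightOneSpectrum (𝓞 K)), (∀ i, IsRegularPlace S P (u i)) ∧
    (∀ (g : AbsoluteGaloisGroup ℚ) (d : ℕ), 0 < d → d < N → ¬ n * orderOn E g ∣ d →
      ∃ (v : HeightOneSpectrum (𝓞 K)) (w : AbsoluteGaloisGroup ℚ), IsRegularPlace S P v ∧
        (∀ x, (∀ i, x ∈ splittingField (P (u i))) → w x = g x) ∧
        ∀ T, IsStableSet w (P v) T → T.ncard ≠ d) ∧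
    ∀ g : AbsoluteGaloisGroup ℚ,
      ∃ (v : HeightOneSpectrum (𝓞 K)) (w : AbsoluteGaloisGroup ℚ), IsRegularPlace S P v ∧
        (∀ x, (∀ i, x ∈ splittingField (P (u i))) → w x = g x) ∧
        ∀ T, IsStableSet w (P v) T → T.Nonempty → n * orderOn E w ∣ T.ncard →
          ∃ x ∈ T, (w ^ orderOn E w) x = x

/-- at one place outside of `S` no quotient of a root of `P v` and a root of `P' v` is a root of unity -/
def IsSeparated {K : Type} [Field K] [NumberField K]
    (S : Set (HeightOneSpectrum (𝓞 K))) (P P' : HeightOneSpectrum (𝓞 K) → ℚ[X]) : Prop :=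
  ∃ v, v ∉ S ∧ ∀ n : ℕ, 0 < n → ∀ x y : ℂ, aeval x (P v) = 0 → aeval y (P' v) = 0 → x ^ n ≠ y ^ n

/-- for every open subgroup `U`: the representations `ρ i` are semisimple under `U`, the `U`-equivariant
endomorphisms of `ρ i` are the linear combinations of the elements of `E i`, whose span has
dimension `[E i : ℚ]` (so they are the elements of `E i ⊗ ℚ_ℓ`), and for `i ≠ j` there are no nonzero
`U`-equivariant homomorphisms from `ρ i` to `ρ j` -/
def TateAndSemisimple {I Γ : Type} [Group Γ] [TopologicalSpace Γ] (ℓ : ℕ) [Fact ℓ.Prime]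
    (N : I → ℕ) (E : I → IntermediateField ℚ (AlgebraicClosure ℚ))
    (ρ : ∀ i, Γ →* Matrix (Fin (N i)) (Fin (N i)) ℚ_[ℓ])
    (ε : ∀ i, E i →+* Matrix (Fin (N i)) (Fin (N i)) ℚ_[ℓ]) : Prop :=
  (∀ i, Module.finrank ℚ_[ℓ] (Submodule.span ℚ_[ℓ] (Set.range (ε i))) = Module.finrank ℚ (E i)) ∧
  ∀ U : Subgroup Γ, IsOpen (U : Set Γ) →
    (∀ i, ∀ W : Submodule ℚ_[ℓ] (Fin (N i) → ℚ_[ℓ]), (∀ σ ∈ U, ∀ w ∈ W, ρ i σ *ᵥ w ∈ W) →
      ∃ W' : Submodule ℚ_[ℓ] (Fin (N i) → ℚ_[ℓ]),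
        (∀ σ ∈ U, ∀ w ∈ W', ρ i σ *ᵥ w ∈ W') ∧ IsCompl W W') ∧
    (∀ i, ∀ Z : Matrix (Fin (N i)) (Fin (N i)) ℚ_[ℓ], (∀ σ ∈ U, Z * ρ i σ = ρ i σ * Z) →
      Z ∈ Submodule.span ℚ_[ℓ] (Set.range (ε i))) ∧
    ∀ i j, i ≠ j → ∀ Z : Matrix (Fin (N j)) (Fin (N i)) ℚ_[ℓ],
      (∀ σ ∈ U, Z * ρ i σ = ρ j σ * Z) → Z = 0

/-- the set `A` of prime numbers has natural density zero -/
def HasDensityZero (A : Set ℕ) : Prop :=
  Tendsto (fun n : ℕ => (Nat.card {ℓ : ℕ // ℓ ≤ n ∧ ℓ ∈ A} : ℝ) / (Nat.primeCounting n : ℝ))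
    atTop (𝓝 0)

theorem span_finrank {ℓ : ℕ} [Fact ℓ.Prime] {N n : ℕ} (hTRD : Y142.SI.S_TRD)
    (E : IntermediateField ℚ (AlgebraicClosure ℚ)) [FiniteDimensional ℚ E] (hn : 0 < n)
    (ε : E →+* Matrix (Fin N) (Fin N) ℚ_[ℓ])
    (htr : ∀ a : E, (ε a).trace = (n : ℚ_[ℓ]) * ((Algebra.trace ℚ E a : ℚ) : ℚ_[ℓ])) :
    Module.finrank ℚ_[ℓ] (Submodule.span ℚ_[ℓ] (Set.range ε)) = Module.finrank ℚ E := by
  refine le_antisymm ?_ (hTRD ℓ N n E inferInstance hn ε htr)
  let b := Module.finBasis ℚ E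
  have h1 : Submodule.span ℚ_[ℓ] (Set.range ε) ≤
      Submodule.span ℚ_[ℓ] (Set.range fun k => ε (b k)) := by
    rw [Submodule.span_le]
    rintro _ ⟨a, rfl⟩
    have h2 : a = ∑ k, b.repr a k • b k := (b.sum_repr a).symm
    have h3 : ε a = ∑ k, ((b.repr a k : ℚ) : ℚ_[ℓ]) • ε (b k) := by
      conv_lhs => rw [h2]
      rw [map_sum]
      refine Finset.sum_congr rfl fun k _ => ?_
      rw [Algebra.smul_def, map_mul]
      have h4 : ε (algebraMap ℚ E (b.repr a k)) =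
          ((b.repr a k : ℚ) : ℚ_[ℓ]) • (1 : Matrix (Fin N) (Fin N) ℚ_[ℓ]) := by
        have h5 : ε.comp (algebraMap ℚ E) =
            (algebraMap ℚ_[ℓ] (Matrix (Fin N) (Fin N) ℚ_[ℓ])).comp (algebraMap ℚ ℚ_[ℓ]) :=
          RingHom.ext_rat _ _
        have h6 := RingHom.congr_fun h5 (b.repr a k)
        rw [RingHom.comp_apply, RingHom.comp_apply] at h6
        rw [h6, Algebra.algebraMap_eq_smul_one, eq_ratCast]
      rw [h4, smul_mul_assoc, one_mul]
    rw [SetLike.mem_coe, h3]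
    exact Submodule.sum_mem _ fun k _ => Submodule.smul_mem _ _ (Submodule.subset_span ⟨k, rfl⟩)
  calc Module.finrank ℚ_[ℓ] (Submodule.span ℚ_[ℓ] (Set.range ε))
      ≤ Module.finrank ℚ_[ℓ] (Submodule.span ℚ_[ℓ] (Set.range fun k => ε (b k))) :=
        Submodule.finrank_mono h1
    _ ≤ Fintype.card (Fin (Module.finrank ℚ E)) := finrank_range_le_card _
    _ = Module.finrank ℚ E := Fintype.card_fin _

theorem density_iUnion {I : Type} [Fintype I] (A : I → Set ℕ)
    (h : ∀ i, Y142.ZI.DensityZero (A i)) : Y142.ZI.DensityZero (⋃ i, A i) := by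
  classical
  have h1 : ∀ t : Finset I, Y142.ZI.DensityZero (⋃ i ∈ t, A i) := by
    intro t
    induction t using Finset.induction_on with
    | empty =>
      refine Y142.ZI.DensityZero.mono (Pool.Agent.X274.TH.density_finite 0) ?_
      intro ℓ hℓ
      simp at hℓ
    | insert a t _ ih =>
      refine Y142.ZI.DensityZero.mono ((h a).union ih) ?_
      intro ℓ hℓ
      simpa using hℓ
  refine Y142.ZI.DensityZero.mono (h1 Finset.univ) ?_
  intro ℓ hℓ
  simpa using hℓ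

/-- **The Tate conjecture for homomorphisms of motives with coefficients, and semisimplicity, at 100
percent of the primes `ℓ`.** -/
theorem result (K : Type) [Field K] [NumberField K] (Γ : Type) [Group Γ] [TopologicalSpace Γ]
    [IsTopologicalGroup Γ] [CompactSpace Γ] (s : AbsoluteGaloisGroup K →* Γ) (hs : Continuous s)
    (S : Set (HeightOneSpectrum (𝓞 K))) (hS : S.Finite)
    (I : Type) [Fintype I] (N n : I → ℕ) (P : I → HeightOneSpectrum (𝓞 K) → ℚ[X])
    (ρ : ∀ (ℓ : ℕ) [Fact ℓ.Prime] (i : I), Γ →* Matrix (Fin (N i)) (Fin (N i)) ℚ_[ℓ])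
    (hρ : ∀ (ℓ : ℕ) [Fact ℓ.Prime] (i : I), IsSystem K s (N i) ℓ (ρ ℓ i) S (P i))
    (E : I → IntermediateField ℚ (AlgebraicClosure ℚ)) [∀ i, FiniteDimensional ℚ (E i)]
    [∀ i, Normal ℚ (E i)] (hn : ∀ i, 0 < n i) (hN : ∀ i, N i = n i * Module.finrank ℚ (E i))
    (ε : ∀ (ℓ : ℕ) [Fact ℓ.Prime] (i : I), E i →+* Matrix (Fin (N i)) (Fin (N i)) ℚ_[ℓ])
    (hε : ∀ (ℓ : ℕ) [Fact ℓ.Prime] (i : I), IsCoefficientAction (E i) (n i) (ρ ℓ i) (ε ℓ i))
    (hplaces : ∀ i, EnoughPlaces (E i) (n i) (N i) S (P i))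
    (hsep : ∀ i j, i ≠ j → IsSeparated S (P i) (P j)) :
    HasDensityZero {ℓ | ∃ _ : Fact ℓ.Prime, ¬ TateAndSemisimple ℓ N E (ρ ℓ) (ε ℓ)} := by
  classical
  -- the tasks
  have hFROB : Y142.ZO.S_FROB := Y405.ZO.t
  have hINT : Y142.ZI.S_INT := Y484.ZI.t1
  have hCHEB : Y142.ZI.S_CHEB := Y726.ZI.t1
  have hDENS2 : Y142.ZI.S_DENS2 := Y681.ZI.t hCHEB
  have hMULTI : Y142.ZI.S_MULTI := Y537.ZI.t
  have hLF : Y142.SS.S_LF := Y255.SS.t
  have hCF : Y142.SS.S_CF := Y297.SS.t hLF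
  have hLOC : Y142.SS.S_LOC := Y708.SS.Loc.t hCF
  have hLOGR : Y142.SS.S_LOGR := Y936.SS.t
  have hKRS : Y142.SS.S_KRS := Y518.SS.t
  have hCHARA : Y142.SS.S_CHARA := Y737.SS.Chara.t
  have hBADD : Y142.ZD.S_BADD := Y614.ZD.t
  have hSUB : Y142.ZD.S_SUB := Y100.ZD.t
  have hSUBF : Y142.SI.S_SUBF := Y932.SI.Subf.t hLF hCF
  have hEF : Y142.SI.S_EF := Y421.SI.EF.t hLOC
  have hTRD : Y142.SI.S_TRD := Y641.SI.t
  have hENDE : Y142.SI.S_ENDE := Y949.SI.t
  have hgs : ∀ (ℓ : ℕ) [Fact ℓ.Prime] (i : I), Y142.SI.GenSys K s (N i) ℓ (ρ ℓ i) S (P i) :=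
    fun ℓ _ i => hρ ℓ i
  have hsys' : ∀ (i : I) (ℓ : ℕ) [Fact ℓ.Prime],
      Y142.SS.Sys K (N i) ℓ ((ρ ℓ i).comp s) S (P i) := fun i ℓ _ =>
    ⟨(hgs ℓ i).1.comp hs, fun v hv hvℓ σ hσ => (hgs ℓ i).2 v hv hvℓ σ hσ⟩
  have hnice : ∀ i v, IsRegularPlace S (P i) v → Y142.ZS.NiceP S (P i) v := fun i v hv =>
    Y142.SS.nice_of_complexA (fun ℓ _ => (ρ ℓ i).comp s) (fun ℓ _ => hsys' i ℓ) hv.1 hv.2.1 hv.2.2
  -- one motive
  have hone : ∀ i, Y142.ZI.DensityZero
      {ℓ | ∃ _ : Fact ℓ.Prime, ¬ Y142.SI.GoodEnd ℓ (E i) (ρ ℓ i) (ε ℓ i)} := by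
    intro i
    obtain ⟨m, u, hu, h1, h2⟩ := hplaces i
    have hLf : ∀ (k : Fin (m + 1)) (x : AlgebraicClosure ℚ),
        x ∈ Y142.ZI.Lf (P i (u k)) → x ∈ splittingField (P i (u k)) := by
      intro k x hx
      have h2 : (P i (u k)).rootSet (AlgebraicClosure ℚ) =
          {x : AlgebraicClosure ℚ | aeval x (P i (u k)) = 0} := by
        ext y
        exact mem_rootSet_of_ne (hu k).2.1.ne_zero
      unfold Y142.ZI.Lf at hx
      rw [h2] at hx
      exact hx
    have hA : ∀ g w : AbsoluteGaloisGroup ℚ,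
        (∀ x, (∀ k, x ∈ splittingField (P i (u k))) → w x = g x) →
        w⁻¹ * g ∈ Subgroup.closure (⋃ k, Y142.SS.Fix (P i (u k))) := by
      intro g w hw
      refine Y142.SS.field_mem _ (fun k => (hu k).2.1.ne_zero) fun x hx => ?_
      rw [AlgEquiv.mul_apply, ← hw x fun k => hLf k x (hx k), ← AlgEquiv.mul_apply, inv_mul_cancel,
        AlgEquiv.one_apply]
    refine Y142.SI.densitySI hLOC hLOGR hKRS hCHARA hMULTI hFROB hINT hDENS2 hBADD hSUB hSUBF hEF
      hTRD hENDE hS s hs (fun ℓ _ => ρ ℓ i) (fun ℓ _ => hgs ℓ i) (E i)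
      inferInstance inferInstance (n i) (hn i) (hN i) (fun ℓ _ => ε ℓ i)
      (fun ℓ _ a γ => (hε ℓ i).1 a γ) (fun ℓ _ a => (hε ℓ i).2 a) u
      (fun k => hnice i _ (hu k)) ?_ ?_
    · intro g d hd hdN hnd
      obtain ⟨v, w, hv, hw, hT⟩ := h1 g d hd hdN hnd
      exact ⟨v, hnice i v hv, w, fun T hT1 hT2 => hT T ⟨hT1, hT2⟩, hA g w hw⟩
    · intro g
      obtain ⟨v, w, hv, hw, hT⟩ := h2 g
      exact ⟨v, hnice i v hv, w, fun T hT1 hne hT2 hd => hT T ⟨hT1, hT2⟩ hne hd, hA g w hw⟩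
  -- the places which separate
  choose vv hvv using hsep
  let c : I → I → ℕ := fun i j => if h : i ≠ j then Ideal.absNorm (vv i j h).asIdeal else 0
  let b : ℕ := ∑ i, ∑ j, c i j
  have hbig : Y142.ZI.DensityZero {ℓ : ℕ | ℓ ≤ b} := Pool.Agent.X274.TH.density_finite b
  refine Y142.ZI.DensityZero.mono (hbig.union (density_iUnion _ hone)) ?_
  rintro ℓ ⟨hp, hno⟩
  by_contra hnot
  rw [Set.mem_union, not_or] at hnot
  obtain ⟨hb, hgood'⟩ := hnot
  have hbℓ : b < ℓ := by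
    by_contra h
    exact hb (show ℓ ≤ b by omega)
  have hgood : ∀ i, Y142.SI.GoodEnd ℓ (E i) (ρ ℓ i) (ε ℓ i) := by
    intro i
    by_contra h
    exact hgood' (Set.mem_iUnion.2 ⟨i, hp, h⟩)
  refine hno ⟨fun i => span_finrank hTRD (E i) (hn i) (ε ℓ i) (hε ℓ i).2, fun U hU =>
    ⟨fun i W hW => (hgood i U hU).2 W hW, fun i Z hZ => (hgood i U hU).1 Z hZ, ?_⟩⟩
  intro i j hij Z hZ
  obtain ⟨hvS, hroots⟩ := hvv i j hij
  have hvb : Ideal.absNorm (vv i j hij).asIdeal ≤ b := by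
    refine le_trans ?_ (Finset.single_le_sum (f := fun i => ∑ j, c i j)
      (fun _ _ => Nat.zero_le _) (Finset.mem_univ i))
    refine le_trans ?_ (Finset.single_le_sum (f := fun j => c i j)
      (fun _ _ => Nat.zero_le _) (Finset.mem_univ j))
    simp only [c]
    rw [dif_pos hij]
  have hvℓ := Y142.ZO.not_mem_of_lt (vv i j hij) hp.out (lt_of_le_of_lt hvb hbℓ)
  obtain ⟨τ, hτ⟩ := Pool.Agent.W401.Frob.exists_frob (vv i j hij)
  have hci := (hgs ℓ i).2 _ hvS hvℓ τ hτ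
  have hcj := (hgs ℓ j).2 _ hvS hvℓ τ hτ
  have : Finite (Γ ⧸ U) := Subgroup.quotient_finite_of_isOpen U hU
  have hidx : U.index ≠ 0 := Subgroup.index_ne_zero_of_finite
  obtain ⟨k, hk0, -, hk⟩ := Subgroup.exists_pow_mem_of_index_ne_zero hidx (s τ⁻¹)
  obtain ⟨ι⟩ := Y142.ZI.emb ℓ
  obtain ⟨jc⟩ := Y142.ZI.nonempty_LC
  have hne : ∀ i' , (ρ ℓ i' (s τ⁻¹)).charpoly = (P i' (vv i j hij)).map (algebraMap ℚ ℚ_[ℓ]) →
      P i' (vv i j hij) ≠ 0 := by
    intro i' h h0
    rw [h0, Polynomial.map_zero] at h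
    exact (Matrix.charpoly_monic (ρ ℓ i' (s τ⁻¹))).ne_zero h
  refine Pool.Agent.X274.TH.hom_zero (L := AlgebraicClosure ℚ_[ℓ]) (ρ ℓ i (s τ⁻¹))
    (ρ ℓ j (s τ⁻¹)) k ?_ Z ?_
  · intro x' y' hx' hy' hxy
    rw [hci] at hx'
    rw [hcj] at hy'
    obtain ⟨x, hx, rfl⟩ := Y142.ZI.lift_root ℓ ι (hne i hci) hx'
    obtain ⟨y, hy, rfl⟩ := Y142.ZI.lift_root ℓ ι (hne j hcj) hy'
    rw [← map_pow, ← map_pow] at hxy
    refine hroots k hk0 (jc x) (jc y) (Y142.ZS.push_C jc hx) (Y142.ZS.push_C jc hy) ?_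
    rw [← map_pow, ← map_pow, ι.injective hxy]
  · have := hZ _ hk
    rw [map_pow, map_pow] at this
    exact this

end Pool.Agent.Results.MP_3703a7_ag.HomsDensityOne
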