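import Pool.Agent.Y127.NTower

/-!
# The Tate conjecture over a given field for products of arbitrary powers of varieties with a node

Let `k` be the algebraic closure of a number field `F₀`, `Γ` the Galois group of `F₀`, `W` the étale
cohomology with coefficients in a finite extension of `ℚ_p`, and `χ` the inverse of the cyclotomic
character. The theorem is proved for an abstract Weil cohomology theory with actions of a group.

Let `X_i` be varieties over `F₀` (of even or odd dimension) for which numerical and homological
equivalence coincide, whose transcendental cohomology `T_i` (the orthogonal complement of all
algebraic classes) is in the middle degree and irreducible under all open subgroups. For every `i`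
let `g_i` be one element of `Γ` which acts on the cohomology of `X_i` by a Picard-Lefschetz formula
and trivially on the cohomology of the other `X_j`, on that of `Z`, and on the Tate twists (example:
an element of the inertia group at a place of odd residue characteristic at which `X_i` has one
ordinary double point, and the other `X_j` and `Z` have good reduction).

Let `Y` be a product of `Z` with arbitrary powers of the `X_i`, and let `L` be a set of indices which
contains all `i` with `X_i` of even dimension and with at least `dim T_i` factors `X_i`. Then `Z`
satisfies the Tate conjecture (over all finite extensions of `F₀`, in all codimensions) if and only if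
`Y` satisfies it over every finite extension of `F₀` whose Galois group contains the `g_i`, `i ∈ L`:
every Tate class over such a field is a combination of classes of cycles which are defined over
the field. For `L = ∅` these are all finite extensions.
-/

universe u v w

namespace Pool.Agent.Results.MP_3703a7_ag.NodalTowersGivenField

open Pool.Agent.H914 Pool.Agent.TH125.Gal Pool.Agent.Y127

/-- **The Tate conjecture for products with arbitrary powers of varieties with a node.** -/
theorem result {k : Type u} [Field k] {𝒱 : VarClass k} {ops : CycleOps 𝒱}
    (W : WeilCohomology.{u, v} ops) {Γ : Type w} [Group Γ] (χ : Γ →* W.Kˣ) {ι : Type}
    (X : ι → GVar W Γ) (Z : GVar W Γ) (g : ι → Γ) (h : PLFamily χ X Z g) (S L : Set ι)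
    (Y : GVar W Γ) (hY : LTower X Z S L Y) (hG : GaloisType χ Y) :
    (∀ Δ : Subgroup Γ, Δ.FiniteIndex → (∀ i ∈ L, g i ∈ Δ) → TateOver χ Δ Y) ↔
      TateConjecture χ Z :=
  tate_over_iff h hY hG

end Pool.Agent.Results.MP_3703a7_ag.NodalTowersGivenField
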