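import Pool.Agent.X274.PR.Alg
import Pool.Agent.X274.PR.Homs
import Pool.Agent.Y708.ZO.Tan
import Pool.Agent.Y710.ZS.Tans
import Pool.Agent.Y246.SU.DCT
import Pool.Agent.Y154.SU.Coef
import Pool.Agent.Y794.SV.Rootv
import Pool.Agent.Y641.SV.Liev
import Pool.Agent.Y710.SV.Fftv
import Pool.Agent.Y314.SV.Perfv
import Pool.Agent.Y259.SV.Invv

/-!
# The Tate conjecture for products of symplectic motives at 100 percent of the primes `ℓ`

Let `M_0, ..., M_r` be pure motives over a number field `k` (or a finitely generated field of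
characteristic zero) of odd weight, for example direct factors of the cohomology of smooth projective
varieties in odd degrees, cut out by algebraic correspondences. A number field `E_i`, Galois over `ℚ`
(`E_i = ℚ` is allowed), acts on `M_i` by correspondences which are selfadjoint for a polarization (then
`E_i` is totally real), and the `ℓ`-adic realization `V_i` is free of rank `n_i` over `E_i ⊗ ℚ_ℓ`. The form
`J_i` on `V_i` is alternating; after Tate twists the weights are equal, and all the `J_i` have the same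
multiplier. At the places `v` of good reduction the geometric Frobenius element has a characteristic
polynomial `P_{i,v}` with rational coefficients, independent of `ℓ`, and the multiplier is `q_v`.

**Theorem.** Suppose that
(1) for some place `w_0` of good reduction the product of the polynomials `P_{i,w_0}`, over all `i`, has
simple roots, and `x / y = z / u` for roots `x ≠ y`, `z`, `u` only in the trivial cases `(z, u) = (x, y)` and
`(z, u) = (q / y, q / x)`, `q` the multiplier;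
(2) for every `i` the conditions on finitely many polynomials `P_{i,v}` of the definition `EnoughPlaces`
hold;
(3) for `i ≠ j` there is a place `v` of good reduction such that no quotient of a root of `P_{i,v}` and a root
of `P_{j,v}` is a root of unity.
Then for all prime numbers `ℓ` outside of a set of natural density zero:
(a) the Lie algebra of the image of the Galois group in the product of the groups of similitudes
contains the product, over all `i`, of the Lie algebras of the isometries of `V_i` which commute with `E_i`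
(so the `V_i` are independent, and the images are as large as possible);
(b) every multilinear form in any number `k` of variables on `V_0 ⊕ ... ⊕ V_r` which is invariant under
the isometries in an open subgroup is a linear combination of products of forms `J_i(a x_i, y_i)` in
pairs of variables `x`, `y`, with `a ∈ E_i`.

By (b) all Tate classes of all degrees on all tensor products of tensor powers of the `V_i` and of their
duals, over all finite extensions of `k`, are combinations of products of classes of correspondences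
(the graphs of the elements of the `E_i` and the polarizations). So at 100 percent of the primes `ℓ` the map
`Hom(M, M') ⊗ ℚ_ℓ → Hom_G(M_ℓ, M'_ℓ)` is surjective, for all motives `M`, `M'` in the tensor category
generated by the `M_i`, and for the products of arbitrary powers of varieties whose cohomology is generated
by algebraic classes and the `V_i` the Tate conjecture holds in all degrees. Neither semisimplicity nor
anything about the representations at single primes is assumed.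

The starting result `RealMultiplicationDensityOne` is the case of one motive. The new part is the
independence of several motives: by the theorem on homomorphisms (`HomsDensityOne`) the commutant of every
open subgroup on `V = V_0 ⊕ ... ⊕ V_r` is the product of the `E_i ⊗ ℚ_ℓ` and `V` is semisimple, so by the
double commutant theorem the Lie algebra of the image generates the commutant of this product algebra, and
the argument with the root spaces of one Frobenius element can be applied to `V`.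
-/

set_option autoImplicit false

namespace Pool.Agent.Results.MP_3703a7_ag.ProductsDensityOne

open Matrix Polynomial Filter Topology NumberField IsDedekindDomain

/-- the absolute Galois group of `K`, with its profinite (Krull) topology -/
abbrev AbsoluteGaloisGroup (K : Type) [Field K] : Type := Gal(AlgebraicClosure K/K)

/-- `σ` is an (arithmetic) Frobenius element at the prime `v` of the number field `K`: for some prime
`Q` of the algebraic closure above `v` it acts on the residue field as `x ↦ x ^ N(v)` -/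
def IsFrobenius {K : Type} [Field K] [NumberField K] (v : HeightOneSpectrum (𝓞 K))
    (σ : AbsoluteGaloisGroup K) : Prop :=
  ∃ Q : Ideal (𝓞 (AlgebraicClosure K)), Q.IsMaximal ∧
    Q.comap (algebraMap (𝓞 K) (𝓞 (AlgebraicClosure K))) = v.asIdeal ∧
    ∀ x : 𝓞 (AlgebraicClosure K), σ • x - x ^ Ideal.absNorm v.asIdeal ∈ Q

/-- `ρ i` are continuous representations of `Γ` on `ℚ_ℓ ^ (N i)` by similitudes, with a common
multiplier, of the nondegenerate alternating forms with the matrices `J i`; for all `v ∉ S` which are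
prime to `ℓ` the characteristic polynomial of (the image under `s` of) the geometric Frobenius elements
`σ⁻¹` (`σ` arithmetic) at `v` is `P i v`, and their multiplier is `q v` -/
def IsSymplecticFamily (K : Type) [Field K] [NumberField K] {Γ : Type} [Group Γ]
    [TopologicalSpace Γ] (s : AbsoluteGaloisGroup K →* Γ) {r : ℕ} (N : Fin (r + 1) → ℕ) (ℓ : ℕ)
    [Fact ℓ.Prime] (ρ : ∀ i, Γ →* Matrix (Fin (N i)) (Fin (N i)) ℚ_[ℓ])
    (J : ∀ i, Matrix (Fin (N i)) (Fin (N i)) ℚ_[ℓ])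
    (S : Set (HeightOneSpectrum (𝓞 K))) (P : Fin (r + 1) → HeightOneSpectrum (𝓞 K) → ℚ[X])
    (q : HeightOneSpectrum (𝓞 K) → ℚ) : Prop :=
  (∀ i, Continuous (ρ i) ∧ (J i)ᵀ = -J i ∧ (J i).det ≠ 0) ∧
    (∀ γ, ∃ c : ℚ_[ℓ], ∀ i, (ρ i γ)ᵀ * J i * ρ i γ = c • J i) ∧
    ∀ v ∉ S, (ℓ : 𝓞 K) ∉ v.asIdeal → ∀ σ : AbsoluteGaloisGroup K, IsFrobenius v σ → ∀ i,
      (ρ i (s σ⁻¹)).charpoly = (P i v).map (algebraMap ℚ ℚ_[ℓ]) ∧
        (ρ i (s σ⁻¹))ᵀ * J i * ρ i (s σ⁻¹) = (q v : ℚ_[ℓ]) • J i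

/-- the field `E` acts by selfadjoint endomorphisms of the representation `ρ`, of rank `n` over
`E ⊗ ℚ_ℓ` -/
def IsSelfadjointAction {Γ : Type} [Group Γ] {N ℓ : ℕ} [Fact ℓ.Prime]
    (E : IntermediateField ℚ (AlgebraicClosure ℚ)) (n : ℕ)
    (ρ : Γ →* Matrix (Fin N) (Fin N) ℚ_[ℓ]) (ε : E →+* Matrix (Fin N) (Fin N) ℚ_[ℓ])
    (J : Matrix (Fin N) (Fin N) ℚ_[ℓ]) : Prop :=
  (∀ (a : E) (γ : Γ), ε a * ρ γ = ρ γ * ε a) ∧ (∀ a : E, (ε a)ᵀ * J = J * ε a) ∧
    ∀ a : E, (ε a).trace = (n : ℚ_[ℓ]) * ((Algebra.trace ℚ E a : ℚ) : ℚ_[ℓ])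

/-- the roots of `P v` are simple, and different roots have different `n`-th powers for all `n > 0` -/
def IsRegularPlace {K : Type} [Field K] [NumberField K]
    (S : Set (HeightOneSpectrum (𝓞 K))) (P : HeightOneSpectrum (𝓞 K) → ℚ[X])
    (v : HeightOneSpectrum (𝓞 K)) : Prop :=
  v ∉ S ∧ (P v).Separable ∧ ∀ n : ℕ, 0 < n → ∀ x y : ℂ,
    aeval x (P v) = 0 → aeval y (P v) = 0 → x ^ n = y ^ n → x = y

/-- the roots of `P v` are simple, and the quotients `x / y` of different roots are different, except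
for `x / y = (q / y) / (q / x)`, `q` the multiplier -/
def IsGenericPlace {K : Type} [Field K] [NumberField K]
    (S : Set (HeightOneSpectrum (𝓞 K))) (P : HeightOneSpectrum (𝓞 K) → ℚ[X])
    (q : HeightOneSpectrum (𝓞 K) → ℚ) (v : HeightOneSpectrum (𝓞 K)) : Prop :=
  v ∉ S ∧ (P v).Separable ∧ ∀ x y z u : ℂ, aeval x (P v) = 0 → aeval y (P v) = 0 →
    aeval z (P v) = 0 → aeval u (P v) = 0 → x ≠ y → x * u = z * y →
    (z = x ∧ u = y) ∨ (z * y = (q v : ℂ) ∧ u * x = (q v : ℂ))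

/-- at one place outside of `S` no quotient of a root of `P v` and a root of `P' v` is a root of unity -/
def IsSeparated {K : Type} [Field K] [NumberField K]
    (S : Set (HeightOneSpectrum (𝓞 K))) (P P' : HeightOneSpectrum (𝓞 K) → ℚ[X]) : Prop :=
  ∃ v, v ∉ S ∧ ∀ n : ℕ, 0 < n → ∀ x y : ℂ, aeval x (P v) = 0 → aeval y (P' v) = 0 → x ^ n ≠ y ^ n

/-- the splitting field of `Q` in the algebraic closure of `ℚ` -/
noncomputable def splittingField (Q : ℚ[X]) : Set (AlgebraicClosure ℚ) :=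
  (IntermediateField.adjoin ℚ {x : AlgebraicClosure ℚ | aeval x Q = 0} :
    IntermediateField ℚ (AlgebraicClosure ℚ))

/-- the order of the restriction of `g` to the (finite, normal) field `E` -/
noncomputable def orderOn (E : IntermediateField ℚ (AlgebraicClosure ℚ))
    (g : AbsoluteGaloisGroup ℚ) : ℕ :=
  sInf {k : ℕ | 0 < k ∧ ∀ a ∈ E, (g ^ k) a = a}

/-- `T` is a set of roots of `Q` which is stable under `w` -/
def IsStableSet (w : AbsoluteGaloisGroup ℚ) (Q : ℚ[X]) (T : Set (AlgebraicClosure ℚ)) : Prop :=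
  (∀ x ∈ T, aeval x Q = 0) ∧ ∀ x ∈ T, w x ∈ T

/-- the conditions on the Frobenius polynomials of one motive: there are regular places `u_0, ..., u_m`,
with the intersection `F` of the splitting fields of their polynomials, such that for every
automorphism `g` of the algebraic closure of `ℚ`, of order `f` on `E`,
* for every `d`, `0 < d < n [E : ℚ]`, which is not divisible by `n f`, there are a regular place `v` and an
automorphism `w` which agrees with `g` on `F` such that no set of `d` roots of `P v` is stable under `w`;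
* there are a regular place `v` and an automorphism `w` which agrees with `g` on `F` such that `w ^ f`
(`f` the order of `w` on `E`) has a fixed point in every nonempty set of roots of `P v` which is stable
under `w` and whose number of elements is divisible by `n f` -/
def EnoughPlaces {K : Type} [Field K] [NumberField K] (E : IntermediateField ℚ (AlgebraicClosure ℚ))
    (n N : ℕ) (S : Set (HeightOneSpectrum (𝓞 K))) (P : HeightOneSpectrum (𝓞 K) → ℚ[X]) : Prop :=
  ∃ (m : ℕ) (u : Fin (m + 1) → HeightOneSpectrum (𝓞 K)), (∀ i, IsRegularPlace S P (u i)) ∧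
    (∀ (g : AbsoluteGaloisGroup ℚ) (d : ℕ), 0 < d → d < N → ¬ n * orderOn E g ∣ d →
      ∃ (v : HeightOneSpectrum (𝓞 K)) (w : AbsoluteGaloisGroup ℚ), IsRegularPlace S P v ∧
        (∀ x, (∀ i, x ∈ splittingField (P (u i))) → w x = g x) ∧
        ∀ T, IsStableSet w (P v) T → T.ncard ≠ d) ∧
    ∀ g : AbsoluteGaloisGroup ℚ,
      ∃ (v : HeightOneSpectrum (𝓞 K)) (w : AbsoluteGaloisGroup ℚ), IsRegularPlace S P v ∧
        (∀ x, (∀ i, x ∈ splittingField (P (u i))) → w x = g x) ∧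
        ∀ T, IsStableSet w (P v) T → T.Nonempty → n * orderOn E w ∣ T.ncard →
          ∃ x ∈ T, (w ^ orderOn E w) x = x

/-- the Lie algebra of the image of `Γ` in the product of the linear groups contains the product of the
Lie algebras of isometries: every family of matrices `X i` which commute with `E i` and are skew with
respect to `J i` is, for one sequence of elements `σ_k` of `Γ`, the family of the limits of
`ℓ ^ (-k) (ρ_i (σ_k) - 1)` -/
def ContainsIsometries {Γ : Type} [Group Γ] {r : ℕ} {N : Fin (r + 1) → ℕ} (ℓ : ℕ) [Fact ℓ.Prime]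
    {E : Fin (r + 1) → IntermediateField ℚ (AlgebraicClosure ℚ)}
    (ρ : ∀ i, Γ →* Matrix (Fin (N i)) (Fin (N i)) ℚ_[ℓ])
    (ε : ∀ i, E i →+* Matrix (Fin (N i)) (Fin (N i)) ℚ_[ℓ])
    (J : ∀ i, Matrix (Fin (N i)) (Fin (N i)) ℚ_[ℓ]) : Prop :=
  ∀ X : ∀ i, Matrix (Fin (N i)) (Fin (N i)) ℚ_[ℓ], (∀ i a, X i * ε i a = ε i a * X i) →
    (∀ i, (X i)ᵀ * J i + J i * X i = 0) →
    ∃ σ : ℕ → Γ, ∀ i, Tendsto (fun k : ℕ => ((ℓ : ℚ_[ℓ]) ^ k)⁻¹ • (ρ i (σ k) - 1)) atTop (𝓝 (X i))

/-- every multilinear form in `k` variables (`k` arbitrary) on the direct sum of the `ℚ_ℓ ^ (N i)` which is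
invariant under those `σ` in an open subgroup of `Γ` which act by isometries is a linear combination of
the products `∏ J_{c_j}(a_j v_j, v_{π j})` (one factor for every pair `{j, π j}`), `π` a perfect matching
of the variables, `c_j` one of the indices `i` and `a_j ∈ E_{c_j}`; only the components in
`ℚ_ℓ ^ (N (c_j))` of the two variables enter into a factor -/
def TateTensorsFrom {Γ : Type} [Group Γ] [TopologicalSpace Γ] {r : ℕ} {N : Fin (r + 1) → ℕ} (ℓ : ℕ)
    [Fact ℓ.Prime] {E : Fin (r + 1) → IntermediateField ℚ (AlgebraicClosure ℚ)}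
    (ρ : ∀ i, Γ →* Matrix (Fin (N i)) (Fin (N i)) ℚ_[ℓ])
    (ε : ∀ i, E i →+* Matrix (Fin (N i)) (Fin (N i)) ℚ_[ℓ])
    (J : ∀ i, Matrix (Fin (N i)) (Fin (N i)) ℚ_[ℓ]) : Prop :=
  ∀ (k : ℕ) (φ : MultilinearMap ℚ_[ℓ] (fun _ : Fin k => ∀ i, Fin (N i) → ℚ_[ℓ]) ℚ_[ℓ])
    (U : Subgroup Γ), IsOpen (U : Set Γ) →
    (∀ σ ∈ U, (∀ i, (ρ i σ)ᵀ * J i * ρ i σ = J i) → ∀ v, φ (fun j i => ρ i σ *ᵥ v j i) = φ v) →
    (fun v => φ v) ∈ Submodule.span ℚ_[ℓ] {f : (Fin k → ∀ i, Fin (N i) → ℚ_[ℓ]) → ℚ_[ℓ] |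
      ∃ (π : Equiv.Perm (Fin k)) (c : Fin k → Fin (r + 1)) (a : ∀ j, E (c j)),
        (∀ j, π (π j) = j) ∧ (∀ j, π j ≠ j) ∧
        ∀ v, f v = ∏ j with j < π j, ((ε (c j) (a j) *ᵥ v j (c j)) ⬝ᵥ J (c j) *ᵥ v (π j) (c j))}

/-- the set `A` of prime numbers has natural density zero -/
def HasDensityZero (A : Set ℕ) : Prop :=
  Tendsto (fun n : ℕ => (Nat.card {ℓ : ℕ // ℓ ≤ n ∧ ℓ ∈ A} : ℝ) / (Nat.primeCounting n : ℝ))
    atTop (𝓝 0)

/-- **Products of symplectic motives with real multiplication at 100 percent of the primes `ℓ`.** -/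
theorem result (K : Type) [Field K] [NumberField K] (Γ : Type) [Group Γ] [TopologicalSpace Γ]
    [IsTopologicalGroup Γ] [CompactSpace Γ] (s : AbsoluteGaloisGroup K →* Γ) (hs : Continuous s)
    (S : Set (HeightOneSpectrum (𝓞 K))) (hS : S.Finite)
    (r : ℕ) (N n : Fin (r + 1) → ℕ) (P : Fin (r + 1) → HeightOneSpectrum (𝓞 K) → ℚ[X])
    (q : HeightOneSpectrum (𝓞 K) → ℚ)
    (ρ : ∀ (ℓ : ℕ) [Fact ℓ.Prime] (i : Fin (r + 1)), Γ →* Matrix (Fin (N i)) (Fin (N i)) ℚ_[ℓ])
    (J : ∀ (ℓ : ℕ) [Fact ℓ.Prime] (i : Fin (r + 1)), Matrix (Fin (N i)) (Fin (N i)) ℚ_[ℓ])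
    (hρ : ∀ (ℓ : ℕ) [Fact ℓ.Prime], IsSymplecticFamily K s N ℓ (ρ ℓ) (J ℓ) S P q)
    -- the coefficients
    (E : Fin (r + 1) → IntermediateField ℚ (AlgebraicClosure ℚ)) [∀ i, FiniteDimensional ℚ (E i)]
    [∀ i, Normal ℚ (E i)] (hn : ∀ i, 0 < n i) (hN : ∀ i, N i = n i * Module.finrank ℚ (E i))
    (ε : ∀ (ℓ : ℕ) [Fact ℓ.Prime] (i : Fin (r + 1)),
      E i →+* Matrix (Fin (N i)) (Fin (N i)) ℚ_[ℓ])
    (hε : ∀ (ℓ : ℕ) [Fact ℓ.Prime] (i : Fin (r + 1)),
      IsSelfadjointAction (E i) (n i) (ρ ℓ i) (ε ℓ i) (J ℓ i))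
    -- the places
    (w₀ : HeightOneSpectrum (𝓞 K)) (hw₀ : IsGenericPlace S (fun v => ∏ i, P i v) q w₀)
    (hplaces : ∀ i, EnoughPlaces (E i) (n i) (N i) S (P i))
    (hsep : ∀ i j, i ≠ j → IsSeparated S (P i) (P j)) :
    HasDensityZero {ℓ | ∃ _ : Fact ℓ.Prime, ¬ (ContainsIsometries ℓ (ρ ℓ) (ε ℓ) (J ℓ) ∧
      TateTensorsFrom ℓ (ρ ℓ) (ε ℓ) (J ℓ))} := by
  classical
  -- the tasks
  have hTAN : Y142.ZO.S_TAN := Y708.ZO.t
  have hTANS : Y142.ZS.S_TANS := Y710.ZS.t1
  have hDCT : Y142.SU.S_DCT := Y246.SU.DCT.t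
  have hLIEV : Y142.SV.S_LIEV := Y641.SV.t Y794.SV.t_rootv
  have hFFTV : Y142.SV.S_FFTV := Y710.SV.t
  have hINVV : Y142.SV.S_INVV := Y259.SV.t Y314.SV.t_PERFV
  have hCOEF : Y142.SU.S_COEF := Y154.SU.t_COEF
  have hgs : ∀ (ℓ : ℕ) [Fact ℓ.Prime] (i : Fin (r + 1)),
      Y142.SI.GenSys K s (N i) ℓ (ρ ℓ i) S (P i) := fun ℓ _ i =>
    ⟨((hρ ℓ).1 i).1, fun v hv hvℓ σ hσ => ((hρ ℓ).2.2 v hv hvℓ σ hσ i).1⟩
  have hsys' : ∀ (i : Fin (r + 1)) (ℓ : ℕ) [Fact ℓ.Prime],
      Y142.SS.Sys K (N i) ℓ ((ρ ℓ i).comp s) S (P i) := fun i ℓ _ =>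
    ⟨(hgs ℓ i).1.comp hs, fun v hv hvℓ σ hσ => (hgs ℓ i).2 v hv hvℓ σ hσ⟩
  have hnice : ∀ i v, IsRegularPlace S (P i) v → Y142.ZS.NiceP S (P i) v := fun i v hv =>
    Y142.SS.nice_of_complexA (fun ℓ _ => (ρ ℓ i).comp s) (fun ℓ _ => hsys' i ℓ) hv.1 hv.2.1 hv.2.2
  have henough : ∀ i, X274.PR.Enough (E i) (n i) (N i) S (P i) := by
    intro i
    obtain ⟨m, u, hu, h1, h2⟩ := hplaces i
    have hLf : ∀ (k : Fin (m + 1)) (x : AlgebraicClosure ℚ),
        x ∈ Y142.ZI.Lf (P i (u k)) → x ∈ splittingField (P i (u k)) := by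
      intro k x hx
      have h2 : (P i (u k)).rootSet (AlgebraicClosure ℚ) =
          {x : AlgebraicClosure ℚ | aeval x (P i (u k)) = 0} := by
        ext y
        exact mem_rootSet_of_ne (hu k).2.1.ne_zero
      unfold Y142.ZI.Lf at hx
      rw [h2] at hx
      exact hx
    have hA : ∀ g w : AbsoluteGaloisGroup ℚ,
        (∀ x, (∀ k, x ∈ splittingField (P i (u k))) → w x = g x) →
        w⁻¹ * g ∈ Subgroup.closure (⋃ k, Y142.SS.Fix (P i (u k))) := by
      intro g w hw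
      refine Y142.SS.field_mem _ (fun k => (hu k).2.1.ne_zero) fun x hx => ?_
      rw [AlgEquiv.mul_apply, ← hw x fun k => hLf k x (hx k), ← AlgEquiv.mul_apply, inv_mul_cancel,
        AlgEquiv.one_apply]
    refine ⟨m, u, fun k => hnice i _ (hu k), ?_, ?_⟩
    · intro g d hd hdN hnd
      obtain ⟨v, w, hv, hw, hT⟩ := h1 g d hd hdN hnd
      exact ⟨v, hnice i v hv, w, fun T hT1 hT2 => hT T ⟨hT1, hT2⟩, hA g w hw⟩
    · intro g
      obtain ⟨v, w, hv, hw, hT⟩ := h2 g
      exact ⟨v, hnice i v hv, w, fun T hT1 hne hT2 hd => hT T ⟨hT1, hT2⟩ hne hd, hA g w hw⟩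
  have hmain := X274.PR.homs_density s hs hS N n P ρ hgs E inferInstance inferInstance hn hN ε
    (fun ℓ _ i => (hε ℓ i).1) (fun ℓ _ i => (hε ℓ i).2.2) henough hsep
  have hNpos : 0 < N 0 := by
    rw [hN]
    exact Nat.mul_pos (hn 0) Module.finrank_pos
  have hq0 : q w₀ ≠ 0 := by
    refine Y142.SU.q_ne_zeroU (K := K) (S := S) hNpos s (fun ℓ _ => ρ ℓ 0) (fun ℓ _ => J ℓ 0)
      (fun ℓ _ => ⟨Or.inr ((hρ ℓ).1 0).2.1, ((hρ ℓ).1 0).2.2, fun γ => ?_,
        fun v hv hvℓ σ hσ => ((hρ ℓ).2.2 v hv hvℓ σ hσ 0).2⟩) hw₀.1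
    obtain ⟨c, hc⟩ := (hρ ℓ).2.1 γ
    exact ⟨c, hc 0⟩
  have hmonic : ∀ i, (P i w₀).Monic := fun i =>
    (Y142.SS.monic_of_sysA (fun ℓ _ => (ρ ℓ i).comp s) (fun ℓ _ => hsys' i ℓ) hw₀.1).1
  have hgen : Y142.ZS.GenP S (fun v => ∏ i, P i v) q w₀ :=
    Y142.SU.gen_of_complexU hw₀.1 (monic_prod_of_monic _ _ fun i _ => hmonic i) hq0 hw₀.2.1 hw₀.2.2
  have hbig : Y142.ZI.DensityZero {ℓ : ℕ | ℓ ≤ Ideal.absNorm w₀.asIdeal} :=
    X274.TH.density_finite _
  refine Y142.ZI.DensityZero.mono (hbig.union hmain) ?_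
  rintro ℓ ⟨hp, hno⟩
  by_contra hnot
  rw [Set.mem_union, not_or] at hnot
  obtain ⟨h0, h1⟩ := hnot
  have hℓ : Ideal.absNorm w₀.asIdeal < ℓ := not_le.1 h0
  have hgood : (∀ i, Y142.SI.GoodEnd ℓ (E i) (ρ ℓ i) (ε ℓ i)) ∧
      ∀ U : Subgroup Γ, IsOpen (U : Set Γ) → ∀ i j, i ≠ j →
        ∀ Z : Matrix (Fin (N j)) (Fin (N i)) ℚ_[ℓ],
          (∀ σ ∈ U, Z * ρ ℓ i σ = ρ ℓ j σ * Z) → Z = 0 := by
    by_contra h
    exact h1 ⟨hp, h⟩
  have hvℓ := Y142.ZO.not_mem_of_lt w₀ hp.out hℓ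
  obtain ⟨σ₀, hσ₀⟩ := Pool.Agent.W401.Frob.exists_frob w₀
  -- the direct sum
  let R : Γ →* Matrix (Fin (X274.PR.tot N)) (Fin (X274.PR.tot N)) ℚ_[ℓ] :=
    { toFun := fun γ => X274.PR.big fun i => ρ ℓ i γ
      map_one' := by
        rw [← X274.PR.big_one]
        congr 1
        funext i
        exact map_one _
      map_mul' := fun a b => by
        rw [← X274.PR.big_mul]
        congr 1
        funext i
        exact map_mul _ _ _ }
  have hR : ∀ γ, R γ = X274.PR.big fun i => ρ ℓ i γ := fun _ => rfl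
  have hRc : Continuous R := by
    refine continuous_matrix fun a b => ?_
    obtain ⟨⟨i, a⟩, rfl⟩ := (X274.PR.num N).surjective a
    obtain ⟨⟨j, b⟩, rfl⟩ := (X274.PR.num N).surjective b
    by_cases hij : i = j
    · subst hij
      have : (fun γ => R γ (X274.PR.num N ⟨i, a⟩) (X274.PR.num N ⟨i, b⟩)) =
          fun γ => ρ ℓ i γ a b := by
        funext γ
        rw [hR, X274.PR.big_same]
      rw [this]
      exact (hgs ℓ i).1.matrix_elem a b
    · have : (fun γ => R γ (X274.PR.num N ⟨i, a⟩) (X274.PR.num N ⟨j, b⟩)) = fun γ => 0 := by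
        funext γ
        rw [hR, X274.PR.big_ne _ hij]
      rw [this]
      exact continuous_const
  let C : ∀ i, Subalgebra ℚ_[ℓ] (Matrix (Fin (N i)) (Fin (N i)) ℚ_[ℓ]) := fun i =>
    Algebra.adjoin ℚ_[ℓ] (Set.range (ε ℓ i))
  have hco := fun i => hCOEF ℓ (N i) (n i) (E i) inferInstance (hn i) (ε ℓ i) (hε ℓ i).2.2
  have hself : ∀ i, Y142.SV.Selfadj (J ℓ i) (C i) := fun i =>
    Y142.SV.selfadj_of (Or.inr ((hρ ℓ).1 i).2.1) ((hρ ℓ).1 i).2.2 (ε ℓ i) (hco i).1 (hε ℓ i).2.1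
  have hCρ : ∀ i, ∀ A ∈ C i, ∀ γ, A * ρ ℓ i γ = ρ ℓ i γ * A := by
    intro i A hA γ
    induction hA using Algebra.adjoin_induction with
    | mem x hx =>
      obtain ⟨a, rfl⟩ := hx
      exact (hε ℓ i).1 a γ
    | algebraMap r => exact Algebra.commutes r _
    | add x y _ _ hx hy => rw [add_mul, mul_add, hx, hy]
    | mul x y _ _ hx hy => rw [mul_assoc, hy, ← mul_assoc, hx, mul_assoc]
  have hsim : ∀ g, ∃ c : ℚ_[ℓ], Y142.ZS.Sim (X274.PR.big (J ℓ)) (R g) c := by
    intro g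
    obtain ⟨c, hc⟩ := (hρ ℓ).2.1 g
    refine ⟨c, ?_⟩
    unfold Y142.ZS.Sim
    rw [hR, X274.PR.big_transpose, ← X274.PR.big_mul, ← X274.PR.big_mul, ← X274.PR.big_smul]
    congr 1
    funext i
    exact hc i
  have hfr := (hρ ℓ).2.2 w₀ hw₀.1 hvℓ σ₀ hσ₀
  have hsimτ : Y142.ZS.Sim (X274.PR.big (J ℓ)) (R (s σ₀⁻¹)) (q w₀ : ℚ_[ℓ]) := by
    unfold Y142.ZS.Sim
    rw [hR, X274.PR.big_transpose, ← X274.PR.big_mul, ← X274.PR.big_mul, ← X274.PR.big_smul]
    congr 1
    funext i
    exact (hfr i).2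
  have hchar : (R (s σ₀⁻¹)).charpoly = (∏ i, P i w₀).map (algebraMap ℚ ℚ_[ℓ]) := by
    rw [hR, X274.PR.charpoly_big, Polynomial.map_prod]
    exact Finset.prod_congr rfl fun i _ => (hfr i).1
  obtain ⟨hlie, hten⟩ := X274.PR.local_alg hTAN hTANS hDCT hLIEV hFFTV hINVV R hRc
    (X274.PR.big (J ℓ)) (X274.PR.algB C)
    (X274.PR.algB_selfadj (fun i => ((hρ ℓ).1 i).2.1) hself)
    (X274.PR.algB_red fun i => (hco i).2.1)
    (by
      rw [X274.PR.big_transpose, ← X274.PR.big_neg]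
      congr 1
      funext i
      exact ((hρ ℓ).1 i).2.1)
    (by
      intro X hX γ
      obtain ⟨A, hA, rfl⟩ := X274.PR.mem_algB.1 hX
      rw [hR, ← X274.PR.big_mul, ← X274.PR.big_mul]
      congr 1
      funext i
      exact hCρ i _ (hA i) γ)
    hsim
    (by
      intro U hU
      refine ⟨fun X hX => ?_, fun W hW => ?_⟩
      · have hblk : ∀ i j, ∀ τ ∈ U,
            X274.PR.blk X i j * ρ ℓ j τ = ρ ℓ i τ * X274.PR.blk X i j := by
          intro i j τ hτ
          have h2 := congrArg (fun Y => X274.PR.blk Y i j) (hX τ hτ)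
          simp only [hR] at h2
          rw [X274.PR.blk_mul_big, X274.PR.blk_big_mul] at h2
          exact h2
        have hoff : ∀ i j, i ≠ j → X274.PR.blk X i j = 0 := fun i j hij =>
          hgood.2 U hU j i (Ne.symm hij) _ (hblk i j)
        rw [X274.PR.eq_big hoff]
        exact X274.PR.mem_algB.2 ⟨_, fun i => Algebra.span_le_adjoin _ _
          ((hgood.1 i U hU).1 _ (hblk i i)), rfl⟩
      · exact X274.PR.semi_big (G := Γ) (U : Set Γ) (fun i γ => ρ ℓ i γ)
          (fun i W hW => (hgood.1 i U hU).2 W hW) W hW)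
    (s σ₀⁻¹) (q w₀ : ℚ_[ℓ]) (by exact_mod_cast hq0) hsimτ
    (by rw [hchar]; exact hw₀.2.1.map)
    (by rw [hchar]; exact Y142.SU.generic_of_gen hgen ℓ)
  refine hno ⟨fun X hX1 hX2 => ?_, fun k φ U hU hφ => ?_⟩
  · have hL : Y142.SV.LieV (X274.PR.big (J ℓ)) (X274.PR.algB C) (X274.PR.big X) := by
      refine ⟨fun Y hY => ?_, ?_⟩
      · obtain ⟨A, hA, rfl⟩ := X274.PR.mem_algB.1 hY
        rw [← X274.PR.big_mul, ← X274.PR.big_mul]
        congr 1
        funext i
        exact (Y142.SV.lieV_of (ε ℓ i) (hco i).2.2.1 (hX1 i) (hX2 i)).1 _ (hA i)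
      · rw [X274.PR.big_transpose, ← X274.PR.big_mul, ← X274.PR.big_mul, ← X274.PR.big_add,
          ← X274.PR.big_zero]
        congr 1
        funext i
        exact hX2 i
    obtain ⟨σ, hσ⟩ := hlie _ hL
    refine ⟨σ, fun i => ?_⟩
    have h2 := ((continuous_matrix fun a b =>
      continuous_id.matrix_elem (X274.PR.num N ⟨i, a⟩) (X274.PR.num N ⟨i, b⟩) :
      Continuous fun Y : Matrix (Fin (X274.PR.tot N)) (Fin (X274.PR.tot N)) ℚ_[ℓ] =>
        X274.PR.blk Y i i).tendsto _).comp hσ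
    rw [X274.PR.blk_big] at h2
    refine h2.congr fun k => ?_
    have h3 : ((ℓ : ℚ_[ℓ]) ^ k)⁻¹ • (R (σ k) - 1) =
        X274.PR.big fun i => ((ℓ : ℚ_[ℓ]) ^ k)⁻¹ • (ρ ℓ i (σ k) - 1) := by
      have h4 : (fun i => ((ℓ : ℚ_[ℓ]) ^ k)⁻¹ • (ρ ℓ i (σ k) - 1)) =
          ((ℓ : ℚ_[ℓ]) ^ k)⁻¹ • ((fun i => ρ ℓ i (σ k)) - 1) := rfl
      rw [h4, X274.PR.big_smul, ← X274.PR.bigHom_apply (F := ℚ_[ℓ]) (N := N)
        ((fun i => ρ ℓ i (σ k)) - 1), map_sub, map_one, X274.PR.bigHom_apply, hR]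
    show X274.PR.blk (((ℓ : ℚ_[ℓ]) ^ k)⁻¹ • (R (σ k) - 1)) i i = _
    rw [h3, X274.PR.blk_big]
  · refine X274.PR.fromHerm_big (J := J ℓ) (C := C) (E := fun i => E i) (fun i => ε ℓ i)
      (fun i => (hco i).2.2.1) φ ?_
    have h2 := hten k (φ.compLinearMap fun _ => (X274.PR.dec ℚ_[ℓ] N).toLinearMap) U hU (by
      intro σ hσ hiso v
      have hiso' : ∀ i, (ρ ℓ i σ)ᵀ * J ℓ i * ρ ℓ i σ = J ℓ i := by
        rw [hR, X274.PR.big_transpose, ← X274.PR.big_mul, ← X274.PR.big_mul] at hiso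
        exact fun i => congrFun (X274.PR.big_inj hiso) i
      have h3 := hφ σ hσ hiso' fun j => X274.PR.dec ℚ_[ℓ] N (v j)
      show φ (fun j => X274.PR.dec ℚ_[ℓ] N (R σ *ᵥ v j)) = φ fun j => X274.PR.dec ℚ_[ℓ] N (v j)
      rw [← h3]
      congr 1
      funext j i
      rw [hR, X274.PR.dec_mulVec])
    exact h2

end Pool.Agent.Results.MP_3703a7_ag.ProductsDensityOne
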