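import Pool.Agent.X274.SU.Fftu
import Pool.Agent.X274.SU.Invu
import Pool.Agent.X274.SU.Rootu
import Pool.Agent.Y142.SV.Fin
import Pool.Agent.Y405.ZO.Frob
import Pool.Agent.Y484.ZI.IntRes
import Pool.Agent.Y726.ZI.Cheb
import Pool.Agent.Y681.ZI.Dens
import Pool.Agent.Y537.ZI.Multi
import Pool.Agent.Y614.ZD.Badd
import Pool.Agent.Y100.ZD.Sub
import Pool.Agent.Y255.SS.LF
import Pool.Agent.Y297.SS.CF
import Pool.Agent.Y708.SS.Loc
import Pool.Agent.Y936.SS.Logr
import Pool.Agent.Y518.SS.Krs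
import Pool.Agent.Y737.SS.Chara
import Pool.Agent.Y932.SI.Subf
import Pool.Agent.Y421.SI.EF
import Pool.Agent.Y641.SI.Trd
import Pool.Agent.Y949.SI.Ende
import Pool.Agent.Y708.ZO.Tan
import Pool.Agent.Y710.ZS.Tans
import Pool.Agent.Y246.SU.DCT
import Pool.Agent.Y154.SU.Coef
import Pool.Agent.Y217.SU.Lieu
import Pool.Agent.Y177.SU.Fftd

/-!
# The Tate conjecture for motives of unitary type at 100 percent of the primes `ℓ`

Let `X` be a smooth projective variety over a number field or a finitely generated field `k` of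
characteristic zero and let `V_ℓ`, for all primes `ℓ`, be a direct factor of the `ℓ`-adic cohomology of `X`
(of any degree) which is cut out by algebraic correspondences and on which a number field `E`, Galois over
`ℚ`, acts by correspondences, such that the adjoint of `a ∈ E` with respect to the form `J_ℓ` on `V_ℓ`
given by a polarization is `bar a`, with an automorphism `bar` of `E` different from the identity (then
`E` is a CM field and `bar` is the complex conjugation). `V_ℓ` is free of rank `n` over `E ⊗ ℚ_ℓ`, and `J_ℓ`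
is alternating (odd degree) or symmetric (even degree). The representation comes from a profinite group
`Γ` (the Galois group of `k` or the fundamental group of a model); if `k` is not a number field, a closed
point of the generic fibre of the model gives a homomorphism `s` from the Galois group of a number field
`K` to `Γ`. At the places `v` of good reduction the geometric Frobenius element has a characteristic
polynomial `P_v` with rational coefficients and a multiplier `q_v`, independent of `ℓ`.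

The image of the Galois group is contained in the group of the similitudes of `J_ℓ` which commute with `E`,
a group of unitary similitudes over `E ⊗ ℚ_ℓ`. In the generic case one expects for every `ℓ` that it
contains an open subgroup of the special unitary group; this follows from the Mumford-Tate conjecture.
It implies the Tate conjecture for all classes of degree less than `n` on all powers of `X` which come
from `V_ℓ` (in degree `n` there are the classes of Weil type, the determinants over `E`).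

**Theorem.** Suppose that
(1) for some place `w_0` of good reduction the roots of `P_{w_0}` are simple and `x / y = z / u` for roots
`x ≠ y`, `z`, `u` only in the trivial cases `(z, u) = (x, y)` and `(z, u) = (q / y, q / x)`, `q` the multiplier;
(2) `u_0, ..., u_m` are places of good reduction such that the roots of `P_{u_i}` are simple and no
quotient of two different roots is a root of unity, `F` is the intersection of the splitting fields of
these polynomials, and for every automorphism `g` of the algebraic closure of `ℚ`, of order `f` on `E`,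
* for every `d < n [E : ℚ]`, `d > 0`, which is not divisible by `n f`, there are a place `v` of this type and
an automorphism `w` which agrees with `g` on `F` such that no set of `d` roots of `P_v` is stable under `w`;
* there are a place `v` of this type and an automorphism `w` which agrees with `g` on `F` such that
`w ^ f` (`f` the order of `w` on `E`) has a fixed point in every nonempty set of roots of `P_v` which is
stable under `w` and whose number of elements is divisible by `n f`.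
Then for all prime numbers `ℓ` outside of a set of natural density zero:
(a) the Lie algebra of the image of `Γ` contains the special unitary Lie algebra, that is all `X` which
commute with `E`, are skew with respect to `J_ℓ`, and satisfy `trace (X a) = 0` for all `a ∈ E` (so the image
contains an open subgroup of the special unitary group over `E`);
(b) every multilinear form in `k < n` variables on `V_ℓ` which is invariant under the isometries in an
open subgroup of `Γ` is a linear combination of products of forms `J_ℓ(a x, y)` with `a ∈ E`.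

By (b) all Tate classes of degree less than `n` on the tensor powers of `V_ℓ` and of its dual, over all
finite extensions of `k`, are combinations of products of classes of correspondences (the graphs of the
elements of `E` and the polarization), so they are algebraic. Neither semisimplicity nor anything about the
representations at single primes is assumed. All hypotheses are conditions on finitely many Frobenius
polynomials.

The starting result `RealMultiplicationDensityOne` is the case of selfadjoint coefficients (orthogonal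
and symplectic groups over a totally real field). The reduction to the tasks ROOTU, FFTU and INVU is
in the starting files (project Y142-SU); these three tasks are done here (`Pool/Agent/X274/SU`).
-/

set_option autoImplicit false

namespace Pool.Agent.Results.MP_3703a7_ag.UnitaryDensityOne

open Matrix Polynomial Filter Topology NumberField IsDedekindDomain

/-- the absolute Galois group of `K`, with its profinite (Krull) topology -/
abbrev AbsoluteGaloisGroup (K : Type) [Field K] : Type := Gal(AlgebraicClosure K/K)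

/-- `σ` is an (arithmetic) Frobenius element at the prime `v` of the number field `K`: for some prime
`Q` of the algebraic closure above `v` it acts on the residue field as `x ↦ x ^ N(v)` -/
def IsFrobenius {K : Type} [Field K] [NumberField K] (v : HeightOneSpectrum (𝓞 K))
    (σ : AbsoluteGaloisGroup K) : Prop :=
  ∃ Q : Ideal (𝓞 (AlgebraicClosure K)), Q.IsMaximal ∧
    Q.comap (algebraMap (𝓞 K) (𝓞 (AlgebraicClosure K))) = v.asIdeal ∧
    ∀ x : 𝓞 (AlgebraicClosure K), σ • x - x ^ Ideal.absNorm v.asIdeal ∈ Q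

/-- `ρ` is a continuous representation of `Γ` on `ℚ_ℓ ^ N` by similitudes of the nondegenerate symmetric
or alternating form with the matrix `J`; for all `v ∉ S` which are prime to `ℓ` the characteristic
polynomial of (the image under `s` of) the geometric Frobenius elements `σ⁻¹` (`σ` arithmetic) at `v`
is `P v`, and their multiplier is `q v` -/
def IsPolarizedSystem (K : Type) [Field K] [NumberField K] {Γ : Type} [Group Γ] [TopologicalSpace Γ]
    (s : AbsoluteGaloisGroup K →* Γ) (N ℓ : ℕ) [Fact ℓ.Prime]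
    (ρ : Γ →* Matrix (Fin N) (Fin N) ℚ_[ℓ]) (J : Matrix (Fin N) (Fin N) ℚ_[ℓ])
    (S : Set (HeightOneSpectrum (𝓞 K))) (P : HeightOneSpectrum (𝓞 K) → ℚ[X])
    (q : HeightOneSpectrum (𝓞 K) → ℚ) : Prop :=
  Continuous ρ ∧ (Jᵀ = J ∨ Jᵀ = -J) ∧ J.det ≠ 0 ∧
    (∀ γ, ∃ c : ℚ_[ℓ], (ρ γ)ᵀ * J * ρ γ = c • J) ∧
    ∀ v ∉ S, (ℓ : 𝓞 K) ∉ v.asIdeal → ∀ σ : AbsoluteGaloisGroup K, IsFrobenius v σ →
      (ρ (s σ⁻¹)).charpoly = (P v).map (algebraMap ℚ ℚ_[ℓ]) ∧
        (ρ (s σ⁻¹))ᵀ * J * ρ (s σ⁻¹) = (q v : ℚ_[ℓ]) • J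

/-- the roots of `P v` are simple, and different roots have different `n`-th powers for all `n > 0` -/
def IsRegularPlace {K : Type} [Field K] [NumberField K]
    (S : Set (HeightOneSpectrum (𝓞 K))) (P : HeightOneSpectrum (𝓞 K) → ℚ[X])
    (v : HeightOneSpectrum (𝓞 K)) : Prop :=
  v ∉ S ∧ (P v).Separable ∧ ∀ n : ℕ, 0 < n → ∀ x y : ℂ,
    aeval x (P v) = 0 → aeval y (P v) = 0 → x ^ n = y ^ n → x = y

/-- the roots of `P v` are simple, and the quotients `x / y` of different roots are different, except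
for `x / y = (q / y) / (q / x)`, `q` the multiplier -/
def IsGenericPlace {K : Type} [Field K] [NumberField K]
    (S : Set (HeightOneSpectrum (𝓞 K))) (P : HeightOneSpectrum (𝓞 K) → ℚ[X])
    (q : HeightOneSpectrum (𝓞 K) → ℚ) (v : HeightOneSpectrum (𝓞 K)) : Prop :=
  v ∉ S ∧ (P v).Separable ∧ ∀ x y z u : ℂ, aeval x (P v) = 0 → aeval y (P v) = 0 →
    aeval z (P v) = 0 → aeval u (P v) = 0 → x ≠ y → x * u = z * y →
    (z = x ∧ u = y) ∨ (z * y = (q v : ℂ) ∧ u * x = (q v : ℂ))

/-- the splitting field of `Q` in the algebraic closure of `ℚ` -/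
noncomputable def splittingField (Q : ℚ[X]) : Set (AlgebraicClosure ℚ) :=
  (IntermediateField.adjoin ℚ {x : AlgebraicClosure ℚ | aeval x Q = 0} :
    IntermediateField ℚ (AlgebraicClosure ℚ))

/-- the order of the restriction of `g` to the (finite, normal) field `E` -/
noncomputable def orderOn (E : IntermediateField ℚ (AlgebraicClosure ℚ))
    (g : AbsoluteGaloisGroup ℚ) : ℕ :=
  sInf {k : ℕ | 0 < k ∧ ∀ a ∈ E, (g ^ k) a = a}

/-- `T` is a set of roots of `Q` which is stable under `w` -/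
def IsStableSet (w : AbsoluteGaloisGroup ℚ) (Q : ℚ[X]) (T : Set (AlgebraicClosure ℚ)) : Prop :=
  (∀ x ∈ T, aeval x Q = 0) ∧ ∀ x ∈ T, w x ∈ T

/-- the Lie algebra of the image contains the special unitary Lie algebra over `E`: every matrix `X`
which commutes with `E`, is skew with respect to `J`, and satisfies `trace (X a) = 0` for all `a ∈ E`, is a
limit of `ℓ ^ (-k) (ρ (σ_k) - 1)` for a sequence of elements `σ_k` of `Γ` -/
def ContainsSpecialUnitary {Γ : Type} [Group Γ] {N : ℕ} (ℓ : ℕ) [Fact ℓ.Prime]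
    {E : IntermediateField ℚ (AlgebraicClosure ℚ)} (ρ : Γ →* Matrix (Fin N) (Fin N) ℚ_[ℓ])
    (ε : E →+* Matrix (Fin N) (Fin N) ℚ_[ℓ]) (J : Matrix (Fin N) (Fin N) ℚ_[ℓ]) : Prop :=
  ∀ X : Matrix (Fin N) (Fin N) ℚ_[ℓ], (∀ a, X * ε a = ε a * X) → Xᵀ * J + J * X = 0 →
    (∀ a, (X * ε a).trace = 0) →
    ∃ σ : ℕ → Γ, Tendsto (fun k : ℕ => ((ℓ : ℚ_[ℓ]) ^ k)⁻¹ • (ρ (σ k) - 1)) atTop (𝓝 X)

/-- every multilinear form in `k < n` variables on `ℚ_ℓ ^ N` which is invariant under the isometries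
`ρ σ`, `σ` in an open subgroup of `Γ`, is a linear combination of the products `∏ J(a_j v_j, v_{π j})` (one
factor for every pair `{j, π j}`), `π` a perfect matching of the variables and `a_j ∈ E` -/
def TateTensorsFrom {Γ : Type} [Group Γ] [TopologicalSpace Γ] {N : ℕ} (n ℓ : ℕ) [Fact ℓ.Prime]
    {E : IntermediateField ℚ (AlgebraicClosure ℚ)} (ρ : Γ →* Matrix (Fin N) (Fin N) ℚ_[ℓ])
    (ε : E →+* Matrix (Fin N) (Fin N) ℚ_[ℓ]) (J : Matrix (Fin N) (Fin N) ℚ_[ℓ]) : Prop :=
  ∀ k < n, ∀ (φ : MultilinearMap ℚ_[ℓ] (fun _ : Fin k => Fin N → ℚ_[ℓ]) ℚ_[ℓ]) (U : Subgroup Γ),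
    IsOpen (U : Set Γ) →
    (∀ σ ∈ U, (ρ σ)ᵀ * J * ρ σ = J → ∀ v, φ (fun j => ρ σ *ᵥ v j) = φ v) →
    (fun v => φ v) ∈ Submodule.span ℚ_[ℓ] {f : (Fin k → Fin N → ℚ_[ℓ]) → ℚ_[ℓ] |
      ∃ (π : Equiv.Perm (Fin k)) (a : Fin k → E), (∀ j, π (π j) = j) ∧ (∀ j, π j ≠ j) ∧
        ∀ v, f v = ∏ j with j < π j, ((ε (a j) *ᵥ v j) ⬝ᵥ J *ᵥ v (π j))}

/-- the set `A` of prime numbers has natural density zero -/
def HasDensityZero (A : Set ℕ) : Prop :=
  Tendsto (fun n : ℕ => (Nat.card {ℓ : ℕ // ℓ ≤ n ∧ ℓ ∈ A} : ℝ) / (Nat.primeCounting n : ℝ))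
    atTop (𝓝 0)

/-- **Motives of unitary type at 100 percent of the primes `ℓ`.** -/
theorem result (K : Type) [Field K] [NumberField K] (Γ : Type) [Group Γ] [TopologicalSpace Γ]
    [IsTopologicalGroup Γ] [CompactSpace Γ] (s : AbsoluteGaloisGroup K →* Γ) (hs : Continuous s)
    (N : ℕ) (S : Set (HeightOneSpectrum (𝓞 K))) (hS : S.Finite)
    (P : HeightOneSpectrum (𝓞 K) → ℚ[X]) (q : HeightOneSpectrum (𝓞 K) → ℚ)
    (ρ : ∀ (ℓ : ℕ) [Fact ℓ.Prime], Γ →* Matrix (Fin N) (Fin N) ℚ_[ℓ])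
    (J : ∀ (ℓ : ℕ) [Fact ℓ.Prime], Matrix (Fin N) (Fin N) ℚ_[ℓ])
    (hρ : ∀ (ℓ : ℕ) [Fact ℓ.Prime], IsPolarizedSystem K s N ℓ (ρ ℓ) (J ℓ) S P q)
    -- the coefficients
    (E : IntermediateField ℚ (AlgebraicClosure ℚ)) [FiniteDimensional ℚ E] [Normal ℚ E]
    (n : ℕ) (hn : 0 < n) (hN : N = n * Module.finrank ℚ E)
    (ε : ∀ (ℓ : ℕ) [Fact ℓ.Prime], E →+* Matrix (Fin N) (Fin N) ℚ_[ℓ])
    (hε : ∀ (ℓ : ℕ) [Fact ℓ.Prime] (a : E) (γ : Γ), ε ℓ a * ρ ℓ γ = ρ ℓ γ * ε ℓ a)
    (htr : ∀ (ℓ : ℕ) [Fact ℓ.Prime] (a : E),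
      (ε ℓ a).trace = (n : ℚ_[ℓ]) * ((Algebra.trace ℚ E a : ℚ) : ℚ_[ℓ]))
    (bar : E →+* E) (hbar : ∃ a, bar a ≠ a)
    (hεJ : ∀ (ℓ : ℕ) [Fact ℓ.Prime] (a : E), (ε ℓ a)ᵀ * J ℓ = J ℓ * ε ℓ (bar a))
    -- the places
    (w₀ : HeightOneSpectrum (𝓞 K)) (hw₀ : IsGenericPlace S P q w₀)
    (m : ℕ) (u : Fin (m + 1) → HeightOneSpectrum (𝓞 K)) (hu : ∀ i, IsRegularPlace S P (u i))
    (h1 : ∀ (g : AbsoluteGaloisGroup ℚ) (d : ℕ), 0 < d → d < N → ¬ n * orderOn E g ∣ d →
      ∃ (v : HeightOneSpectrum (𝓞 K)) (w : AbsoluteGaloisGroup ℚ), IsRegularPlace S P v ∧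
        (∀ x, (∀ i, x ∈ splittingField (P (u i))) → w x = g x) ∧
        ∀ T, IsStableSet w (P v) T → T.ncard ≠ d)
    (h2 : ∀ g : AbsoluteGaloisGroup ℚ,
      ∃ (v : HeightOneSpectrum (𝓞 K)) (w : AbsoluteGaloisGroup ℚ), IsRegularPlace S P v ∧
        (∀ x, (∀ i, x ∈ splittingField (P (u i))) → w x = g x) ∧
        ∀ T, IsStableSet w (P v) T → T.Nonempty → n * orderOn E w ∣ T.ncard →
          ∃ x ∈ T, (w ^ orderOn E w) x = x) :
    HasDensityZero {ℓ | ∃ _ : Fact ℓ.Prime, ¬ (ContainsSpecialUnitary ℓ (ρ ℓ) (ε ℓ) (J ℓ) ∧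
      TateTensorsFrom n ℓ (ρ ℓ) (ε ℓ) (J ℓ))} := by
  -- the tasks
  have hFROB : Y142.ZO.S_FROB := Y405.ZO.t
  have hINT : Y142.ZI.S_INT := Y484.ZI.t1
  have hCHEB : Y142.ZI.S_CHEB := Y726.ZI.t1
  have hDENS2 : Y142.ZI.S_DENS2 := Y681.ZI.t hCHEB
  have hMULTI : Y142.ZI.S_MULTI := Y537.ZI.t
  have hLF : Y142.SS.S_LF := Y255.SS.t
  have hCF : Y142.SS.S_CF := Y297.SS.t hLF
  have hLOC : Y142.SS.S_LOC := Y708.SS.Loc.t hCF
  have hLOGR : Y142.SS.S_LOGR := Y936.SS.t
  have hKRS : Y142.SS.S_KRS := Y518.SS.t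
  have hCHARA : Y142.SS.S_CHARA := Y737.SS.Chara.t
  have hBADD : Y142.ZD.S_BADD := Y614.ZD.t
  have hSUB : Y142.ZD.S_SUB := Y100.ZD.t
  have hSUBF : Y142.SI.S_SUBF := Y932.SI.Subf.t hLF hCF
  have hEF : Y142.SI.S_EF := Y421.SI.EF.t hLOC
  have hTRD : Y142.SI.S_TRD := Y641.SI.t
  have hENDE : Y142.SI.S_ENDE := Y949.SI.t
  have hTAN : Y142.ZO.S_TAN := Y708.ZO.t
  have hTANS : Y142.ZS.S_TANS := Y710.ZS.t1
  have hDCT : Y142.SU.S_DCT := Y246.SU.DCT.t
  have hROOTU : Y142.SU.S_ROOTU := X274.SU.t_rootu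
  have hLIEU : Y142.SU.S_LIEU := Y217.SU.t hROOTU
  have hFFTU : Y142.SU.S_FFTU := X274.SU.t_fftu
  have hFFTD : Y142.SU.S_FFTD := Y177.SU.t hFFTU
  have hINVU : Y142.SU.S_INVU := X274.SU.t_invu
  have hCOEF : Y142.SU.S_COEF := Y154.SU.t_COEF
  have hNpos : 0 < N := by
    rw [hN]
    exact Nat.mul_pos hn Module.finrank_pos
  have hgs : ∀ (ℓ : ℕ) [Fact ℓ.Prime], Y142.SI.GenSys K s N ℓ (ρ ℓ) S P := fun ℓ _ =>
    ⟨(hρ ℓ).1, fun v hv hvℓ σ hσ => ((hρ ℓ).2.2.2.2 v hv hvℓ σ hσ).1⟩
  have hfs : ∀ (ℓ : ℕ) [Fact ℓ.Prime], Y142.SU.FormSys K s N ℓ (ρ ℓ) (J ℓ) S q := fun ℓ _ =>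
    ⟨(hρ ℓ).2.1, (hρ ℓ).2.2.1, (hρ ℓ).2.2.2.1,
      fun v hv hvℓ σ hσ => ((hρ ℓ).2.2.2.2 v hv hvℓ σ hσ).2⟩
  have hsys' : ∀ (ℓ : ℕ) [Fact ℓ.Prime], Y142.SS.Sys K N ℓ ((ρ ℓ).comp s) S P := fun ℓ _ =>
    ⟨(hgs ℓ).1.comp hs, fun v hv hvℓ σ hσ => (hgs ℓ).2 v hv hvℓ σ hσ⟩
  have hnice : ∀ v, IsRegularPlace S P v → Y142.ZS.NiceP S P v := fun v hv =>
    Y142.SS.nice_of_complexA (fun ℓ _ => (ρ ℓ).comp s) hsys' hv.1 hv.2.1 hv.2.2
  have hgen : Y142.ZS.GenP S P q w₀ :=
    Y142.SU.gen_of_complexU hw₀.1 (Y142.SS.monic_of_sysA (fun ℓ _ => (ρ ℓ).comp s) hsys' hw₀.1).1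
      (Y142.SU.q_ne_zeroU hNpos s ρ J hfs hw₀.1) hw₀.2.1 hw₀.2.2
  have hLf : ∀ (i : Fin (m + 1)) (x : AlgebraicClosure ℚ),
      x ∈ Y142.ZI.Lf (P (u i)) → x ∈ splittingField (P (u i)) := by
    intro i x hx
    have h2 : (P (u i)).rootSet (AlgebraicClosure ℚ) =
        {x : AlgebraicClosure ℚ | aeval x (P (u i)) = 0} := by
      ext y
      exact mem_rootSet_of_ne (hu i).2.1.ne_zero
    unfold Y142.ZI.Lf at hx
    rw [h2] at hx
    exact hx
  have hA : ∀ g w : AbsoluteGaloisGroup ℚ,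
      (∀ x, (∀ i, x ∈ splittingField (P (u i))) → w x = g x) →
      w⁻¹ * g ∈ Subgroup.closure (⋃ i, Y142.SS.Fix (P (u i))) := by
    intro g w hw
    refine Y142.SS.field_mem _ (fun i => (hu i).2.1.ne_zero) fun x hx => ?_
    rw [AlgEquiv.mul_apply, ← hw x fun i => hLf i x (hx i), ← AlgEquiv.mul_apply, inv_mul_cancel,
      AlgEquiv.one_apply]
  refine Y142.ZI.DensityZero.mono (Y142.SU.densitySU hTAN hTANS hDCT hLIEU hFFTD hINVU hCOEF hLOC
    hLOGR hKRS hCHARA hMULTI hFROB hINT hDENS2 hBADD hSUB hSUBF hEF hTRD hENDE hS s hs ρ hgs E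
    inferInstance inferInstance n hn hN ε hε htr J hfs bar hbar hεJ hgen u
    (fun i => hnice _ (hu i)) ?_ ?_) ?_
  · intro g d hd hdN hnd
    obtain ⟨v, w, hv, hw, hT⟩ := h1 g d hd hdN hnd
    exact ⟨v, hnice v hv, w, fun T hT1 hT2 => hT T ⟨hT1, hT2⟩, hA g w hw⟩
  · intro g
    obtain ⟨v, w, hv, hw, hT⟩ := h2 g
    exact ⟨v, hnice v hv, w, fun T hT1 hne hT2 hd => hT T ⟨hT1, hT2⟩ hne hd, hA g w hw⟩
  · rintro ℓ ⟨hp, hno⟩
    refine ⟨hp, fun hgood => hno ?_⟩
    have hspan := (hCOEF ℓ N n E inferInstance hn (ε ℓ) (htr ℓ)).2.2.1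
    refine ⟨fun X hX1 hX2 hX3 => hgood.1 X (Y142.SU.suLie_of (ε ℓ) hspan hX1 hX2 hX3), ?_⟩
    intro k hk φ U hU hφ
    exact Y142.SU.fromHerm_le (ε ℓ) hspan k (hgood.2 k φ U hk hU hφ)

end Pool.Agent.Results.MP_3703a7_ag.UnitaryDensityOne
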